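import Pool.Agent.helper43.DHB.SpecB

/-!
# d2:bXOP (MP_5823cb_al): the operators (helper11)
-/

set_option autoImplicit false

open Filter Topology MeasureTheory
open scoped commutatorElement

namespace Pool.Agent.helper90.DH

open Pool.Agent.helper64.D2

/-- `syn` is linear. -/
theorem bXOP_add (s : ℕ) (v w : Kc s × Bool → ℝ) (x : ℝ) : syn s (v + w) x = syn s v x + syn s w x := by
  unfold syn
  rw [← Finset.sum_add_distrib]
  refine Finset.sum_congr rfl fun α _ => ?_
  rw [Pi.add_apply, add_mul]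

theorem bXOP_smul (s : ℕ) (c : ℝ) (v : Kc s × Bool → ℝ) (x : ℝ) : syn s (c • v) x = c * syn s v x := by
  unfold syn
  rw [Finset.mul_sum]
  refine Finset.sum_congr rfl fun α _ => ?_
  rw [Pi.smul_apply, smul_eq_mul, mul_assoc]

/-- the norm in `L²`. -/
theorem bXOP_norm (F : ℝ → ℝ) (hF : MemLp F 2 (volume : Measure ℝ)) : ‖hF.toLp F‖ = √(nsq F) := by
  rw [MeasureTheory.Lp.norm_toLp, hF.eLpNorm_eq_integral_rpow_norm (by norm_num) (by norm_num), ENNReal.toReal_ofReal (by positivity)]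
  have h2 : (2 : ENNReal).toReal = 2 := by norm_num
  rw [h2, Real.sqrt_eq_rpow]
  have e : (∫ a, ‖F a‖ ^ (2 : ℝ)) = nsq F := by
    unfold nsq
    refine integral_congr_ae (Eventually.of_forall fun a => ?_)
    show ‖F a‖ ^ (2 : ℝ) = F a ^ 2
    rw [Real.rpow_two, Real.norm_eq_abs, sq_abs]
  rw [e]
  norm_num

theorem bXOP (hBAS : bBAS_stmt) (hNIC : bNIC_stmt) : bXOP_stmt := by
  intro s
  classical
  obtain ⟨-, -, hind, -, hmem, -, -, hmono, -, hcomp, hPA⟩ := hNIC
  -- facts for good `C`, `A`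
  have hNc : ∀ v : Kc s × Bool → ℝ, Nc (syn s v) := fun v => hPA (s + 1) _ ((hBAS s).1 v).1 ((hBAS s).1 v).2.1
  have hG : ∀ (C : ℝ → ℝ) (A : Set ℝ), NM (1 / 20) C → MeasurableSet A → ∀ v : Kc s × Bool → ℝ,
      Nc (A.indicator (fun x => syn s v (C x))) ∧ nsq (A.indicator (fun x => syn s v (C x))) ≤ 20 / 19 * ∑ α, v α ^ 2 := by
    intro C A hC hA v
    obtain ⟨h1, h2⟩ := hcomp C (1 / 20) (syn s v) (by norm_num) hC (hNc v)
    have h3 : Nc (A.indicator (fun x => syn s v (C x))) := hind _ A hA h1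
    refine ⟨h3, ?_⟩
    have h4 : nsq (A.indicator (fun x => syn s v (C x))) ≤ nsq (fun x => syn s v (C x)) := by
      refine hmono _ _ h3 h1 fun x => ?_
      by_cases hx : x ∈ A
      · rw [Set.indicator_of_mem hx]
      · rw [Set.indicator_of_notMem hx, abs_zero]
        exact abs_nonneg _
    have h5 := ((hBAS s).1 v).2.2.2
    rw [h5] at h2
    calc _ ≤ _ := h4
      _ ≤ _ := h2
      _ = _ := by norm_num
  let L : ∀ (C : ℝ → ℝ) (A : Set ℝ), NM (1 / 20) C → MeasurableSet A →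
      (EuclideanSpace ℝ (Kc s × Bool) →ₗ[ℝ] (MeasureTheory.Lp ℝ 2 (volume : Measure ℝ))) := fun C A hC hA =>
    { toFun := fun v => (hmem _ (hG C A hC hA (WithLp.ofLp v)).1).2.2.toLp _
      map_add' := by
        intro v w
        rw [← MemLp.toLp_add]
        congr 1
        funext x
        rw [Pi.add_apply]
        by_cases hx : x ∈ A
        · rw [Set.indicator_of_mem hx, Set.indicator_of_mem hx, Set.indicator_of_mem hx]
          exact bXOP_add s _ _ _
        · rw [Set.indicator_of_notMem hx, Set.indicator_of_notMem hx, Set.indicator_of_notMem hx, add_zero]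
      map_smul' := by
        intro c v
        rw [RingHom.id_apply, ← MemLp.toLp_const_smul]
        congr 1
        funext x
        rw [Pi.smul_apply]
        by_cases hx : x ∈ A
        · rw [Set.indicator_of_mem hx, Set.indicator_of_mem hx, smul_eq_mul]
          exact bXOP_smul s _ _ _
        · rw [Set.indicator_of_notMem hx, Set.indicator_of_notMem hx, smul_zero] }
  have hb : ∀ (C : ℝ → ℝ) (A : Set ℝ) (hC : NM (1 / 20) C) (hA : MeasurableSet A) (v : EuclideanSpace ℝ (Kc s × Bool)),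
      ‖L C A hC hA v‖ ≤ 11 / 10 * ‖v‖ := by
    intro C A hC hA v
    have h1 : ‖L C A hC hA v‖ = √(nsq (A.indicator (fun x => syn s (WithLp.ofLp v) (C x)))) :=
      bXOP_norm _ (hmem _ (hG C A hC hA (WithLp.ofLp v)).1).2.2
    rw [h1, EuclideanSpace.norm_eq]
    have h2 : ∑ i, ‖v i‖ ^ 2 = ∑ α, (WithLp.ofLp v) α ^ 2 := by
      refine Finset.sum_congr rfl fun i _ => ?_
      rw [Real.norm_eq_abs, sq_abs]
    rw [h2]
    have h3 := (hG C A hC hA (WithLp.ofLp v)).2
    have h4 : (0 : ℝ) ≤ ∑ α, (WithLp.ofLp v) α ^ 2 := Finset.sum_nonneg fun _ _ => sq_nonneg _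
    calc √(nsq (A.indicator (fun x => syn s (WithLp.ofLp v) (C x)))) ≤ √((11 / 10) ^ 2 * ∑ α, (WithLp.ofLp v) α ^ 2) := by
          apply Real.sqrt_le_sqrt
          refine h3.trans ?_
          nlinarith
      _ = 11 / 10 * √(∑ α, (WithLp.ofLp v) α ^ 2) := by
          rw [Real.sqrt_mul (by positivity), Real.sqrt_sq (by norm_num)]
  refine ⟨fun C A => if h : NM (1 / 20) C ∧ MeasurableSet A then (L C A h.1 h.2).mkContinuous (11 / 10) (hb C A h.1 h.2) else 0, ?_⟩
  intro C A hC hA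
  have hCA : NM (1 / 20) C ∧ MeasurableSet A := ⟨hC, hA⟩
  simp only [dif_pos hCA]
  refine ⟨fun v => ?_, LinearMap.mkContinuous_norm_le _ (by norm_num) _⟩
  exact MemLp.coeFn_toLp (hmem _ (hG C A hC hA (WithLp.ofLp v)).1).2.2

end Pool.Agent.helper90.DH
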